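import Mathlib

set_option autoImplicit false

open scoped InnerProductSpace

/-!
# The net of the vectors of an orthonormal basis and of their negatives
-/

namespace Pool.Agent.V7H52.HX

/-- the vectors of an orthonormal basis and their negatives -/
theorem cross_net (m : ℕ) (hm : 1 ≤ m) : ∃ D : Finset (EuclideanSpace ℝ (Fin m)),
    D.card ≤ 2 * m ∧ (∀ t ∈ D, ‖t‖ = 1) ∧
      ∀ u : EuclideanSpace ℝ (Fin m), ‖u‖ = 1 → ∃ t ∈ D, 1 / √(m : ℝ) ≤ ⟪u, t⟫_ℝ := by
  classical
  refine ⟨(Finset.univ.image fun i => EuclideanSpace.single i (1 : ℝ)) ∪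
    (Finset.univ.image fun i => -EuclideanSpace.single i (1 : ℝ)), ?_, ?_, ?_⟩
  · refine (Finset.card_union_le _ _).trans ?_
    have h1 := Finset.card_image_le (s := (Finset.univ : Finset (Fin m)))
      (f := fun i => (EuclideanSpace.single i (1 : ℝ) : EuclideanSpace ℝ (Fin m)))
    have h2 := Finset.card_image_le (s := (Finset.univ : Finset (Fin m)))
      (f := fun i => -(EuclideanSpace.single i (1 : ℝ) : EuclideanSpace ℝ (Fin m)))
    rw [Finset.card_univ, Fintype.card_fin] at h1 h2
    omega
  · intro t ht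
    rw [Finset.mem_union, Finset.mem_image, Finset.mem_image] at ht
    rcases ht with ⟨i, -, rfl⟩ | ⟨i, -, rfl⟩
    · simp
    · simp
  · intro u hu
    have hm0 : (0 : ℝ) < m := by exact_mod_cast hm
    have hs : 0 < √(m : ℝ) := Real.sqrt_pos.2 hm0
    have hsq : ∑ i, u i ^ 2 = 1 := by
      have := EuclideanSpace.norm_sq_eq u
      rw [hu] at this
      simp only [Real.norm_eq_abs, sq_abs] at this
      linarith
    have hex : ∃ i, 1 / √(m : ℝ) ≤ |u i| := by
      by_contra hcon
      push Not at hcon
      have h1 : ∀ i, u i ^ 2 < 1 / m := by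
        intro i
        have h2 := hcon i
        have h3 : |u i| ^ 2 < (1 / √(m : ℝ)) ^ 2 := by
          have := abs_nonneg (u i)
          gcongr
        rw [sq_abs, div_pow, one_pow, Real.sq_sqrt hm0.le] at h3
        exact h3
      have h2 : ∑ i : Fin m, u i ^ 2 < ∑ _i : Fin m, (1 : ℝ) / m := by
        refine Finset.sum_lt_sum_of_nonempty ?_ fun i _ => h1 i
        exact ⟨⟨0, hm⟩, Finset.mem_univ _⟩
      rw [hsq, Finset.sum_const, Finset.card_univ, Fintype.card_fin, nsmul_eq_mul,
        mul_one_div_cancel hm0.ne'] at h2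
      exact lt_irrefl _ h2
    obtain ⟨i, hi⟩ := hex
    rcases le_total 0 (u i) with h | h
    · refine ⟨EuclideanSpace.single i 1, Finset.mem_union_left _ (Finset.mem_image_of_mem _
        (Finset.mem_univ i)), ?_⟩
      rw [abs_of_nonneg h] at hi
      rw [EuclideanSpace.inner_single_right]
      simpa using hi
    · refine ⟨-EuclideanSpace.single i 1, Finset.mem_union_right _ (Finset.mem_image_of_mem
        (fun i => -(EuclideanSpace.single i (1 : ℝ) : EuclideanSpace ℝ (Fin m)))
        (Finset.mem_univ i)), ?_⟩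
      rw [abs_of_nonpos h] at hi
      rw [inner_neg_right, EuclideanSpace.inner_single_right]
      simpa using hi

end Pool.Agent.V7H52.HX
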