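import Mathlib
import Pool.Agent.V7H52.GX.Main

set_option autoImplicit false

open Set Filter Topology
open scoped InnerProductSpace

/-!
# Bodies adapted to relations between normals and points in the blocks
-/

namespace Pool.Agent.V7H52.HX

open Pool.Agent.V7H52.GX (Dec Mx Sec max_pos)

/-- `w` is positive on all nonzero vectors `z` which are in the relation `R` with `u`. -/
def Test {E : Type*} [NormedAddCommGroup E] [InnerProductSpace ℝ E] (R : E → E → Prop)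
    (u w : E) : Prop :=
  ∀ z : E, z ≠ 0 → R u z → 0 < ⟪w, z⟫_ℝ

section

variable {ι : Type*} [Fintype ι] [DecidableEq ι] {E : ι → Type*} [∀ i, NormedAddCommGroup (E i)]
  [∀ i, InnerProductSpace ℝ (E i)] [∀ i, FiniteDimensional ℝ (E i)] {F : Type*}
  [NormedAddCommGroup F] [InnerProductSpace ℝ F] [FiniteDimensional ℝ F]
  {V : Type*} [NormedAddCommGroup V] [InnerProductSpace ℝ V] [FiniteDimensional ℝ V]
  (T : Dec ι E F V) {K : Set V} {R : ∀ i, E i → E i → Prop}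

/-- The blocks `T.p i u`, `T.p i x` of a normal `u` and of a point `x` of the face of `u` are in the
closed homogeneous relation `R i`, and the fibres of `K` in the block `i` are not on one side
of `0`. -/
structure Good (K : Set V) (R : ∀ i, E i → E i → Prop) : Prop where
  closed : ∀ i, IsClosed {q : E i × E i | R i q.1 q.2}
  smul : ∀ (i : ι) (c c' : ℝ) (u z : E i), 0 < c → 0 < c' → R i u z → R i (c • u) (c' • z)
  adapted : ∀ u x : V, Mx K u x → ∀ i, R i (T.p i u) (T.p i x)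
  pos : ∀ i : ι, ∀ x ∈ K, T.p i x ≠ 0 → ∀ a : E i, a ≠ 0 → ∃ y ∈ K,
    (∀ j, j ≠ i → T.p j y = T.p j x) ∧ T.q y = T.q x ∧ 0 < ⟪a, T.p i y⟫_ℝ

omit [FiniteDimensional ℝ F] [FiniteDimensional ℝ V] in
theorem zero_one (hK : Convex ℝ K) (hKc : IsCompact K) (hg : Good T K R) {i : ι}
    {x y : V} (hx : x ∈ K) (hi : T.p i y = 0)
    (hj : ∀ j, j ≠ i → T.p j y = T.p j x) (hq : T.q y = T.q x) : y ∈ K := by
  set A : Set V := K ∩ {z | (∀ j, j ≠ i → T.p j z = T.p j x) ∧ T.q z = T.q x} with hA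
  have hAc : IsCompact A := by
    refine hKc.inter_right ?_
    have : {z : V | (∀ j, j ≠ i → T.p j z = T.p j x) ∧ T.q z = T.q x} =
        (⋂ j, ⋂ (_ : j ≠ i), {z | T.p j z = T.p j x}) ∩ {z | T.q z = T.q x} := by
      ext z; simp
    rw [this]
    refine IsClosed.inter (isClosed_iInter fun j => isClosed_iInter fun _ => ?_) ?_
    · exact isClosed_eq (T.p j).continuous continuous_const
    · exact isClosed_eq T.q.continuous continuous_const
  have hAv : Convex ℝ A := by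
    intro z hz z' hz' α β hα hβ hαβ
    refine ⟨hK hz.1 hz'.1 hα hβ hαβ, fun j hj' => ?_, ?_⟩
    · rw [map_add, map_smul, map_smul, hz.2.1 j hj', hz'.2.1 j hj', ← add_smul, hαβ, one_smul]
    · rw [map_add, map_smul, map_smul, hz.2.2, hz'.2.2, ← add_smul, hαβ, one_smul]
  set B : Set (E i) := T.p i '' A with hB
  have hBc : IsCompact B := hAc.image (T.p i).continuous
  have hBv : Convex ℝ B := hAv.linear_image (T.p i).toLinearMap
  have h0 : (0 : E i) ∈ B := by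
    by_contra h0
    obtain ⟨f, s, hf1, hf2⟩ := geometric_hahn_banach_closed_point hBv hBc.isClosed h0
    rw [map_zero] at hf2
    set u : E i := (InnerProductSpace.toDual ℝ (E i)).symm f with hu
    have hfu : ∀ z, f z = ⟪u, z⟫_ℝ := fun z => by
      rw [hu, InnerProductSpace.toDual_symm_apply]
    obtain ⟨z, hz⟩ : B.Nonempty := ⟨T.p i x, x, ⟨hx, fun j _ => rfl, rfl⟩, rfl⟩
    have hz1 : ⟪u, z⟫_ℝ < 0 := by rw [← hfu]; exact (hf1 z hz).trans hf2
    have hu0 : u ≠ 0 := by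
      intro h; rw [h, inner_zero_left] at hz1; exact lt_irrefl _ hz1
    have hz0 : z ≠ 0 := by
      intro h; rw [h, inner_zero_right] at hz1; exact lt_irrefl _ hz1
    obtain ⟨v, hv, hvz⟩ := hz
    obtain ⟨z', hz'K, hp2, hp3, hpos⟩ := hg.pos i v hv.1 (by rw [hvz]; exact hz0) u hu0
    have hmem : T.p i z' ∈ B := by
      refine ⟨z', ⟨hz'K, fun j hj' => ?_, ?_⟩, rfl⟩
      · rw [hp2 j hj', hv.2.1 j hj']
      · rw [hp3, hv.2.2]
    have h5 := (hf1 _ hmem).trans hf2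
    rw [hfu] at h5
    linarith
  obtain ⟨z, hz, hz0⟩ := h0
  have : y = z := by
    refine T.ext (fun j => ?_) ?_
    · by_cases hji : j = i
      · subst hji; rw [hi, hz0]
      · rw [hj j hji, hz.2.1 j hji]
    · rw [hq, hz.2.2]
  rw [this]; exact hz.1

omit [FiniteDimensional ℝ F] [FiniteDimensional ℝ V] in
theorem zero_many (hK : Convex ℝ K) (hKc : IsCompact K) (hg : Good T K R)
    (S : Finset ι) : ∀ x ∈ K, ∀ y : V, (∀ j ∈ S, T.p j y = 0) →
      (∀ j, j ∉ S → T.p j y = T.p j x) → T.q y = T.q x → y ∈ K := by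
  induction S using Finset.induction_on with
  | empty =>
    intro x hx y _ h2 h3
    rw [T.ext (fun j => h2 j (by simp)) h3]; exact hx
  | insert i S hi ih =>
    intro x hx y h1 h2 h3
    set z : V := T.glue (Function.update (fun j => T.p j y) i (T.p i x)) (T.q y) with hz
    have hz1 : T.p i z = T.p i x := by rw [hz, T.p_glue]; simp
    have hz2 : ∀ j, j ≠ i → T.p j z = T.p j y := fun j hj => by
      rw [hz, T.p_glue]; simp [Function.update_of_ne hj]
    have hz3 : T.q z = T.q y := by rw [hz, T.q_glue]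
    have hzK : z ∈ K := by
      refine ih x hx z (fun j hj => ?_) (fun j hj => ?_) (hz3.trans h3)
      · have hji : j ≠ i := fun h => hi (h ▸ hj)
        rw [hz2 j hji]; exact h1 j (Finset.mem_insert_of_mem hj)
      · by_cases hji : j = i
        · subst hji; exact hz1
        · rw [hz2 j hji]; exact h2 j (by simp [hji, hj])
    exact zero_one T hK hKc hg hzK (h1 i (Finset.mem_insert_self _ _))
      (fun j hj => (hz2 j hj).symm) hz3.symm

omit [FiniteDimensional ℝ F] [FiniteDimensional ℝ V] in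
theorem zero_all (hK : Convex ℝ K) (hKc : IsCompact K) (hg : Good T K R)
    {x : V} (hx : x ∈ K) : T.glue 0 (T.q x) ∈ K :=
  zero_many T hK hKc hg Finset.univ x hx _ (fun j _ => by rw [T.p_glue]; rfl)
    (fun j hj => absurd (Finset.mem_univ j) hj) (T.q_glue _ _)

omit [FiniteDimensional ℝ F] [FiniteDimensional ℝ V] in
theorem max_sec (hK : Convex ℝ K) (hKc : IsCompact K) (hg : Good T K R)
    {u x : V} (hx : Mx K u x)
    (h : ∀ i, T.p i u = 0 ∨ T.p i x = 0) :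
    Mx (Sec T K) (T.q u) (T.q x) ∧ ⟪u, x⟫_ℝ = ⟪T.q u, T.q x⟫_ℝ := by
  have h1 : ⟪u, x⟫_ℝ = ⟪T.q u, T.q x⟫_ℝ := by
    rw [T.inner_eq, Finset.sum_eq_zero, zero_add]
    intro i _
    rcases h i with h | h
    · rw [h, inner_zero_left]
    · rw [h, inner_zero_right]
  refine ⟨⟨zero_all T hK hKc hg hx.1, fun b hb => ?_⟩, h1⟩
  have h2 := hx.2 _ hb
  rw [T.inner_eq, Finset.sum_eq_zero (fun i _ => by rw [T.p_glue]; exact inner_zero_right _),
    zero_add, T.q_glue] at h2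
  rw [← h1]; exact h2

omit [FiniteDimensional ℝ F] [FiniteDimensional ℝ V] in
/-- The limit lemma. -/
theorem lim (hKc : IsCompact K) (hg : Good T K R) (𝒰 : Ultrafilter ℕ) {u x : ℕ → V} {a : V}
    (hu : Tendsto u 𝒰 (𝓝 a)) (hx : ∀ n, Mx K (u n) (x n)) {S : Finset ι} {c : ℕ → ι → ℝ}
    (hc : ∀ n i, 0 < c n i) {v : ∀ i, E i}
    (hv : ∀ i ∈ S, Tendsto (fun n => c n i • T.p i (u n)) 𝒰 (𝓝 (v i)))
    {w : ∀ i, E i} (hw : ∀ i ∈ S, Test (R i) (v i) (w i)) (hw0 : ∀ i, i ∉ S → w i = 0)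
    {w0 : F} (h0 : ∀ y, Mx K a y → (∀ i ∈ S, T.p i y = 0) → 0 < ⟪w0, T.q y⟫_ℝ)
    {δ : ℕ → ℝ} (hδ : Tendsto δ 𝒰 (𝓝 0)) (hδ0 : ∀ n, 0 < δ n) :
    ∀ᶠ n in (𝒰 : Filter ℕ), 0 < ∑ i, ⟪w i, T.p i (x n)⟫_ℝ + δ n * ⟪w0, T.q (x n)⟫_ℝ := by
  by_contra hcon
  rw [← Ultrafilter.eventually_not] at hcon
  push Not at hcon
  obtain ⟨y, hyK, hy⟩ := hKc.ultrafilter_le_nhds (𝒰.map x)
    (le_principal_iff.2 (Eventually.of_forall fun n => (hx n).1 : ∀ᶠ n in (𝒰 : Filter ℕ), x n ∈ K))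
  have hy : Tendsto x 𝒰 (𝓝 y) := hy
  have hymax : Mx K a y := by
    refine ⟨hyK, fun z hz => ?_⟩
    exact le_of_tendsto_of_tendsto' (hu.inner tendsto_const_nhds) (hu.inner hy)
      fun n => (hx n).2 z hz
  have hpy : ∀ i, Tendsto (fun n => T.p i (x n)) 𝒰 (𝓝 (T.p i y)) := fun i =>
    ((T.p i).continuous.tendsto y).comp hy
  have hqy : Tendsto (fun n => T.q (x n)) 𝒰 (𝓝 (T.q y)) := (T.q.continuous.tendsto y).comp hy
  have hblk : ∀ i ∈ S, R i (v i) (T.p i y) := by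
    intro i hi
    have h1 : Tendsto (fun n => (c n i • T.p i (u n), T.p i (x n))) 𝒰 (𝓝 (v i, T.p i y)) :=
      (hv i hi).prodMk_nhds (hpy i)
    refine (hg.closed i).mem_of_tendsto h1 (Eventually.of_forall fun n => ?_)
    have h2 := hg.smul i (c n i) 1 _ _ (hc n i) one_pos (hg.adapted _ _ (hx n) i)
    rw [one_smul] at h2
    exact h2
  have hnn : ∀ i, 0 ≤ ⟪w i, T.p i y⟫_ℝ := by
    intro i
    by_cases hi : i ∈ S
    · by_cases hz : T.p i y = 0
      · rw [hz, inner_zero_right]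
      · exact (hw i hi _ hz (hblk i hi)).le
    · rw [hw0 i hi, inner_zero_left]
  have hle : ∑ i, ⟪w i, T.p i y⟫_ℝ + 0 * ⟪w0, T.q y⟫_ℝ ≤ 0 := by
    refine le_of_tendsto (Tendsto.add (tendsto_finsetSum _ fun i _ =>
      tendsto_const_nhds.inner (hpy i)) (hδ.mul (tendsto_const_nhds.inner hqy))) hcon
  have hzero : ∀ i ∈ S, T.p i y = 0 := by
    intro i hi
    by_contra hz
    have h1 := hw i hi _ hz (hblk i hi)
    have h2 : 0 < ∑ i, ⟪w i, T.p i y⟫_ℝ :=
      Finset.sum_pos' (fun j _ => hnn j) ⟨i, Finset.mem_univ i, h1⟩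
    linarith
  have hpos := h0 y hymax hzero
  have hev : ∀ᶠ n in (𝒰 : Filter ℕ), 0 < ⟪w0, T.q (x n)⟫_ℝ :=
    (tendsto_const_nhds.inner hqy).eventually_const_lt hpos
  have hneg : ∀ᶠ n in (𝒰 : Filter ℕ), ∃ i, ⟪w i, T.p i (x n)⟫_ℝ < 0 := by
    filter_upwards [hev, hcon] with n h1 h2
    by_contra hall
    push Not at hall
    have h3 : 0 ≤ ∑ i, ⟪w i, T.p i (x n)⟫_ℝ := Finset.sum_nonneg fun i _ => hall i
    have h4 := mul_pos (hδ0 n) h1
    linarith
  obtain ⟨i, hi⟩ := Ultrafilter.eventually_exists_iff.1 hneg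
  have hiS : i ∈ S := by
    by_contra hiS
    obtain ⟨n, hn⟩ := hi.exists
    rw [hw0 i hiS, inner_zero_left] at hn
    exact lt_irrefl _ hn
  have hne : ∀ᶠ n in (𝒰 : Filter ℕ), T.p i (x n) ≠ 0 := by
    filter_upwards [hi] with n hn h
    rw [h, inner_zero_right] at hn
    exact lt_irrefl _ hn
  set z : ℕ → E i := fun n => ‖T.p i (x n)‖⁻¹ • T.p i (x n) with hz
  have hz1 : ∀ᶠ n in (𝒰 : Filter ℕ), z n ∈ Metric.sphere (0 : E i) 1 := by
    filter_upwards [hne] with n hn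
    rw [mem_sphere_zero_iff_norm, hz]
    simp only
    rw [norm_smul, norm_inv, norm_norm, inv_mul_cancel₀ (norm_ne_zero_iff.2 hn)]
  obtain ⟨ζ, hζ1, hζ⟩ := (isCompact_sphere (0 : E i) 1).ultrafilter_le_nhds (𝒰.map z)
    (le_principal_iff.2 hz1)
  have hζ : Tendsto z 𝒰 (𝓝 ζ) := hζ
  have hζ0 : ζ ≠ 0 := by
    intro h
    rw [h, mem_sphere_zero_iff_norm, norm_zero] at hζ1
    exact zero_ne_one hζ1
  have h1 := hw i hiS ζ hζ0 (by
    have h1 : Tendsto (fun n => (c n i • T.p i (u n), z n)) 𝒰 (𝓝 (v i, ζ)) :=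
      (hv i hiS).prodMk_nhds hζ
    refine (hg.closed i).mem_of_tendsto h1 ?_
    filter_upwards [hne] with n hn
    exact hg.smul i (c n i) _ _ _ (hc n i) (inv_pos.2 (norm_pos_iff.2 hn))
      (hg.adapted _ _ (hx n) i))
  have h2 : ⟪w i, ζ⟫_ℝ ≤ 0 := by
    refine le_of_tendsto (tendsto_const_nhds.inner hζ) ?_
    filter_upwards [hi] with n hn
    rw [hz]
    simp only
    rw [inner_smul_right]
    exact mul_nonpos_of_nonneg_of_nonpos (by positivity) hn.le
  linarith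

end

end Pool.Agent.V7H52.HX
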