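import Mathlib
import Pool.Agent.V7H52.HX.Count
import Pool.Agent.V7H52.GX.Final

set_option autoImplicit false

open Set Filter Topology
open scoped InnerProductSpace

/-!
# The bounds, for an arbitrary interior point
-/

namespace Pool.Agent.V7H52.HX

open Pool.Agent.V7H52.GX (Dec Mx Sec SecAt SeparatedBy Cross separatedBy_shift sec_shift
  secAt_compact secAt_interior secAt_convex Space section₀ Bounds dec not_one bothParts_low)

section

variable {ι : Type*} [Fintype ι] [DecidableEq ι] {E : ι → Type*} [∀ i, NormedAddCommGroup (E i)]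
  [∀ i, InnerProductSpace ℝ (E i)] [∀ i, FiniteDimensional ℝ (E i)] {F : Type*}
  [NormedAddCommGroup F] [InnerProductSpace ℝ F] [FiniteDimensional ℝ F]
  {V : Type*} [NormedAddCommGroup V] [InnerProductSpace ℝ V] [FiniteDimensional ℝ V]
  (T : Dec ι E F V) {K : Set V} {R : ∀ i, E i → E i → Prop}

/-- the bound by the number of the section, general point -/
theorem mainA [Nontrivial F] (hK : Convex ℝ K) (hKc : IsCompact K) {o : V} (ho : o ∈ interior K)
    (hg : Good T ((fun x => x + o) ⁻¹' K) R) (D : ∀ i, Finset (E i))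
    (hD : ∀ i, HasTests (R i) (D i)) {N : ℕ} (hN : SeparatedBy (SecAt T K o) (T.q o) N) :
    SeparatedBy K o ((∏ i, ((D i).card + 1)) * N) := by
  classical
  rw [← separatedBy_shift] at hN ⊢
  rw [← sec_shift] at hN
  set K' : Set V := (fun x => x + o) ⁻¹' K with hK'
  have e1 : K' = (Homeomorph.addRight o) ⁻¹' K := rfl
  have hc' : IsCompact K' := by
    rw [e1]; exact (Homeomorph.addRight o).isCompact_preimage.2 hKc
  have h0 : 0 ∈ interior K' := by
    rw [e1, ← (Homeomorph.addRight o).preimage_interior]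
    simpa using ho
  have hconv : Convex ℝ K' := hK.translate_preimage_left o
  have hs : Sec T K' = SecAt T K' 0 := by
    have : (fun i => T.p i (0 : V)) = (0 : ∀ i, E i) := funext fun i => map_zero _
    unfold Sec SecAt
    rw [this]
  have h1 : IsCompact (Sec T K') := hs ▸ secAt_compact T hc' 0
  have h2 : (Sec T K').Nonempty := ⟨T.q 0, interior_subset (hs ▸ secAt_interior T h0)⟩
  obtain ⟨-, D0, hD1, hD2, hD3⟩ := hN.dirs h1 h2
  refine SeparatedBy.of_dirs ?_
  obtain ⟨D', β, h3, h4, h5⟩ := coreA T hconv hc' h0 hg D hD D0 hD1 hD3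
  exact ⟨D', β, h3.trans (Nat.mul_le_mul_left _ hD2), h4, h5⟩

/-- the bound if the section is a cross-body, general point -/
theorem mainB [Nonempty ι] (hE : ∀ i, Nontrivial (E i)) (hK : Convex ℝ K) (hKc : IsCompact K)
    {o : V} (ho : o ∈ interior K)
    (hg : Good T ((fun x => x + o) ⁻¹' K) R) (D : ∀ i, Finset (E i))
    (hD : ∀ i, HasTests (R i) (D i)) {e : ℕ} (he : 1 ≤ e) (b : Module.Basis (Fin e) ℝ F)
    (r : Fin e → ℝ) (hr : ∀ i, 0 < r i)
    (hsec : SecAt T K o = convexHull ℝ (⋃ i, ({T.q o + b i, T.q o - r i • b i} : Set F))) :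
    SeparatedBy K o ((∏ i, ((D i).card + 1) - 1) * 2 ^ e) := by
  classical
  rw [← separatedBy_shift]
  set K' : Set V := (fun x => x + o) ⁻¹' K with hK'
  have e1 : K' = (Homeomorph.addRight o) ⁻¹' K := rfl
  have hc' : IsCompact K' := by
    rw [e1]; exact (Homeomorph.addRight o).isCompact_preimage.2 hKc
  have h0 : 0 ∈ interior K' := by
    rw [e1, ← (Homeomorph.addRight o).preimage_interior]
    simpa using ho
  have hconv : Convex ℝ K' := hK.translate_preimage_left o
  have hs : Sec T K' = Cross b r := by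
    rw [sec_shift, hsec, Cross]
    have h1 : (⋃ i, ({T.q o + b i, T.q o - r i • b i} : Set F)) =
        (fun x => x + T.q o) '' (⋃ i, ({b i, -(r i • b i)} : Set F)) := by
      rw [image_iUnion]
      refine iUnion_congr fun i => ?_
      rw [image_pair, add_comm (b i), neg_add_eq_sub]
    rw [h1]
    have h2 : (fun x => x + T.q o) '' (⋃ i, ({b i, -(r i • b i)} : Set F)) =
        (AffineEquiv.constVAdd ℝ F (T.q o)).toAffineMap ''
          (⋃ i, ({b i, -(r i • b i)} : Set F)) := by
      refine image_congr fun x _ => ?_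
      simp [add_comm]
    rw [h2, ← AffineMap.image_convexHull]
    ext x
    constructor
    · rintro ⟨y, hy, hxy⟩
      have : y = x := by
        have h3 : T.q o + y = x + T.q o := by simpa using hxy
        rw [add_comm x] at h3
        exact add_left_cancel h3
      exact this ▸ hy
    · intro hx
      exact ⟨x, hx, by simp [add_comm]⟩
  exact SeparatedBy.of_dirs (coreB T hE hconv hc' h0 hg D hD he b r hr hs)

end

open Pool.Agent.Results.MP_5e7226_co
open Pool.Agent.Results.MP_5e7226_co.ExtremePointsInFlats (Eu IsCrossBody BothParts)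

/-- **The bounds.** -/
theorem bounds {r : ℕ} (hr : 1 ≤ r) {m : Fin r → ℕ} (hm : ∀ i, 1 ≤ m i) {e : ℕ} (he : 1 ≤ e)
    {R : ∀ i, EuclideanSpace ℝ (Fin (m i)) → EuclideanSpace ℝ (Fin (m i)) → Prop}
    {D : ∀ i, Finset (EuclideanSpace ℝ (Fin (m i)))} (hD : ∀ i, HasTests (R i) (D i))
    {K : Set (Space m e)} (hK : Convex ℝ K) (hKc : IsCompact K) {o : Space m e}
    (ho : o ∈ interior K) (hg : Good (dec m e) ((fun x => x + o) ⁻¹' K) R) {P : ℕ}
    (hP : ∏ i, ((D i).card + 1) ≤ P) : Bounds K o P := by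
  classical
  have hrn : Nonempty (Fin r) := ⟨⟨0, hr⟩⟩
  have hE : ∀ i, Nontrivial (EuclideanSpace ℝ (Fin (m i))) := fun i => by
    have : Nonempty (Fin (m i)) := ⟨⟨0, hm i⟩⟩
    infer_instance
  have hF : Nontrivial (EuclideanSpace ℝ (Fin e)) := by
    have : Nonempty (Fin e) := ⟨⟨0, he⟩⟩
    infer_instance
  have hsec : SecAt (dec m e) K o = section₀ K o := rfl
  have hKs : Convex ℝ (section₀ K o) := by
    rw [← hsec]; exact secAt_convex (dec m e) hK o
  have hcs : IsCompact (section₀ K o) := by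
    rw [← hsec]; exact secAt_compact (dec m e) hKc o
  have hos : o.snd ∈ interior (section₀ K o) := by
    rw [← hsec]; exact secAt_interior (dec m e) ho
  -- from a finite set of planes
  have hfin : ∀ (N : ℕ) (H : Finset (Eu e × ℝ)), H.card ≤ N → (∀ u x₀ : Eu e, u ≠ 0 →
      x₀ ∈ section₀ K o → (∀ y ∈ section₀ K o, ⟪u, y⟫_ℝ ≤ ⟪u, x₀⟫_ℝ) →
        ∃ h ∈ H, ⟪h.1, o.snd⟫_ℝ < h.2 ∧ ∀ x ∈ section₀ K o, ⟪u, x⟫_ℝ = ⟪u, x₀⟫_ℝ →
          h.2 < ⟪h.1, x⟫_ℝ) → SeparatedBy (section₀ K o) o.snd N := by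
    intro N H hHN h
    refine ⟨fun i => (H.toList.getD i (0, 0)).1, fun i => (H.toList.getD i (0, 0)).2,
      fun u x₀ hu hx₀ hmax => ?_⟩
    obtain ⟨t, ht, h4⟩ := h u x₀ hu hx₀ hmax
    obtain ⟨i, hi, hit⟩ := List.getElem_of_mem (Finset.mem_toList.2 ht)
    have hiN : i < N := by
      rw [Finset.length_toList] at hi
      omega
    have h5 : H.toList.getD i (0, 0) = t := by
      rw [List.getD_eq_getElem _ _ hi, hit]
    refine ⟨⟨i, hiN⟩, ?_⟩
    simp only [h5]
    exact h4
  have hA : ∀ N, SeparatedBy (section₀ K o) o.snd N → SeparatedBy K o (P * N) := by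
    intro N hN
    exact (mainA (dec m e) hK hKc ho hg D hD hN).mono (Nat.mul_le_mul_right _ hP)
  have hB : IsCrossBody (section₀ K o) o.snd → SeparatedBy K o ((P - 1) * 2 ^ e) := by
    rintro ⟨v, t, hv, ht, hKv⟩
    have hcard : Fintype.card (Fin e) = Module.finrank ℝ (Eu e) := by simp
    have : Nonempty (Fin e) := ⟨⟨0, he⟩⟩
    refine SeparatedBy.mono (mainB (dec m e) hE hK hKc ho hg D hD he
      (basisOfLinearIndependentOfCardEqFinrank hv hcard) t ht ?_)
      (Nat.mul_le_mul_right _ (Nat.sub_le_sub_right hP 1))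
    rw [hsec, hKv]
    simp only [coe_basisOfLinearIndependentOfCardEqFinrank]
    rfl
  have hP1 : 1 ≤ P := le_trans (Finset.one_le_prod' fun i _ => by omega) hP
  have he2 : 1 < 2 ^ e := Nat.one_lt_two_pow (by omega)
  have hboth : (e ≤ 2 ∨ BothParts (section₀ K o) o.snd) → BothParts (section₀ K o) o.snd := by
    rintro (h | h)
    · exact bothParts_low he h hKs hcs hos
    · exact h
  refine ⟨hA, hB, ?_, ?_, ?_, ?_, ?_⟩
  · intro he1
    have hb := bothParts_low he (by omega) hKs hcs hos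
    have h1 : ¬ ExtremePointsInFlats.SeparatedBy (section₀ K o) o.snd (2 ^ e - 1) := by
      intro h
      subst he1
      exact not_one hcs hos h
    refine (hB (hb.2 h1)).mono ?_
    rw [he1]
    omega
  · intro hP2 hor
    have hb := hboth hor
    have hpow : 1 ≤ 2 ^ (∑ i, m i) := Nat.one_le_two_pow
    by_cases h1 : ExtremePointsInFlats.SeparatedBy (section₀ K o) o.snd (2 ^ e - 1)
    · refine SeparatedBy.mono (hA _ h1) ?_
      calc P * (2 ^ e - 1) ≤ 2 ^ (∑ i, m i) * (2 ^ e - 1) := Nat.mul_le_mul_right _ hP2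
        _ = 2 ^ (∑ i, m i + e) - 2 ^ (∑ i, m i) := by
            rw [Nat.mul_sub, mul_one, pow_add]
        _ ≤ 2 ^ (∑ i, m i + e) - 1 := Nat.sub_le_sub_left hpow _
    · refine (hB (hb.2 h1)).mono ?_
      calc (P - 1) * 2 ^ e ≤ (2 ^ (∑ i, m i) - 1) * 2 ^ e :=
            Nat.mul_le_mul_right _ (Nat.sub_le_sub_right hP2 1)
        _ = 2 ^ (∑ i, m i + e) - 2 ^ e := by rw [Nat.sub_mul, one_mul, pow_add]
        _ ≤ 2 ^ (∑ i, m i + e) - 1 := Nat.sub_le_sub_left he2.le _
  · intro hP2 hP3 hor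
    have hb := hboth hor
    by_cases h1 : ExtremePointsInFlats.SeparatedBy (section₀ K o) o.snd (2 ^ e - 1)
    · exact SeparatedBy.mono (hA _ h1) hP3
    · refine (hB (hb.2 h1)).mono ?_
      rw [pow_add]
      exact Nat.mul_le_mul_right _ hP2
  · intro hlt
    rcases Nat.lt_or_ge 1 e with h1 | h1
    · obtain ⟨H, hH1, -, hH2⟩ := AllConvexBodies.result e h1 (section₀ K o) hcs o.snd hos
      have h3 := hA _ (hfin H.card H le_rfl hH2)
      refine h3.mono ?_
      have h4 : ((P * H.card : ℕ) : ℝ) < ((2 ^ (∑ i, m i + e) : ℕ) : ℝ) := by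
        push_cast
        have hP0 : (0 : ℝ) < P := by exact_mod_cast hP1
        calc (P : ℝ) * H.card ≤ P * (3 * 2 ^ e * (e * Real.log (2 * e ^ 2 + 2 * e + 1))) :=
              mul_le_mul_of_nonneg_left hH1 hP0.le
          _ = (3 * (e * Real.log (2 * e ^ 2 + 2 * e + 1)) * P) * 2 ^ e := by ring
          _ < 2 ^ (∑ i, m i) * 2 ^ e := mul_lt_mul_of_pos_right hlt (by positivity)
          _ = 2 ^ (∑ i, m i + e) := (pow_add _ _ _).symm
      have h5 : P * H.card < 2 ^ (∑ i, m i + e) := by exact_mod_cast h4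
      omega
    · -- `e = 1`
      have he1 : e = 1 := by omega
      have hb := bothParts_low he (by omega) hKs hcs hos
      refine SeparatedBy.mono (hA _ hb.1) ?_
      have h3 : (P : ℝ) ≤ 3 * (e * Real.log (2 * e ^ 2 + 2 * e + 1)) * P := by
        have hP0 : (0 : ℝ) < P := by exact_mod_cast hP1
        have h4 : (1 : ℝ) ≤ 3 * (e * Real.log (2 * e ^ 2 + 2 * e + 1)) := by
          rw [he1]
          have h5 : 1 ≤ Real.log (2 * ((1 : ℕ) : ℝ) ^ 2 + 2 * ((1 : ℕ) : ℝ) + 1) := by
            rw [Real.le_log_iff_exp_le (by positivity)]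
            have := Real.exp_one_lt_d9
            norm_num
            linarith
          push_cast at h5 ⊢
          linarith
        nlinarith
      have h4 : (P : ℝ) < ((2 ^ ∑ i, m i : ℕ) : ℝ) := by
        push_cast
        exact h3.trans_lt hlt
      have h5 : P < 2 ^ ∑ i, m i := by exact_mod_cast h4
      rw [pow_add]
      have h6 : P * 2 ^ e < 2 ^ (∑ i, m i) * 2 ^ e := Nat.mul_lt_mul_of_pos_right h5 (by omega)
      omega
  · intro he3
    subst he3
    obtain ⟨H, hH1, -, hH2⟩ := ThirteenHyperplanes.result (section₀ K o) hcs o.snd hos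
    rw [mul_comm]
    exact hA _ (hfin 13 H hH1 hH2)

end Pool.Agent.V7H52.HX

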