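import Pool.Agent.V7H52.HX.Net

set_option autoImplicit false

open Set Filter Topology MeasureTheory
open scoped InnerProductSpace ENNReal Pointwise

/-!
# Small nets of unit vectors in high dimensions: the existence
-/

namespace Pool.Agent.V7H52.HX

/-- the grid points -/
noncomputable def gridPt (m K : ℕ) (g : Fin m → ℤ) : EuclideanSpace ℝ (Fin m) :=
  WithLp.toLp 2 fun i => (g i : ℝ) / K

theorem grid_near {m : ℕ} {K1 : ℕ} (hm : 0 < m) (hK1 : 0 < K1) (u : EuclideanSpace ℝ (Fin m))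
    (hu : ‖u‖ = 1) : ∃ g ∈ Fintype.piFinset (fun _ : Fin m => Finset.Icc (-((m * K1 : ℕ) : ℤ))
      ((m * K1 : ℕ) : ℤ)), ‖u - gridPt m (m * K1) g‖ ≤ 1 / K1 := by
  have hK : (0 : ℝ) < (m * K1 : ℕ) := by exact_mod_cast Nat.mul_pos hm hK1
  have hm0 : (0 : ℝ) < m := by exact_mod_cast hm
  have hK10 : (0 : ℝ) < K1 := by exact_mod_cast hK1
  have hui : ∀ i, |u i| ≤ 1 := fun i => by
    have := PiLp.norm_apply_le u i
    rw [hu] at this
    simpa using this
  refine ⟨fun i => ⌊(m * K1 : ℕ) * u i⌋, ?_, ?_⟩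
  · rw [Fintype.mem_piFinset]
    intro i
    rw [Finset.mem_Icc]
    have h1 := abs_le.1 (hui i)
    constructor
    · rw [Int.le_floor]
      push_cast
      push_cast at hK
      nlinarith
    · have h2 : (⌊((m * K1 : ℕ) : ℝ) * u i⌋ : ℝ) ≤ ((m * K1 : ℕ) : ℝ) := by
        refine (Int.floor_le _).trans ?_
        nlinarith
      exact_mod_cast h2
  · have h1 : ∀ i, ‖(u - gridPt m (m * K1) (fun i => ⌊((m * K1 : ℕ) : ℝ) * u i⌋)) i‖ ≤
        1 / (m * K1 : ℕ) := by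
      intro i
      have h2 : (u - gridPt m (m * K1) (fun i => ⌊((m * K1 : ℕ) : ℝ) * u i⌋)) i =
          (((m * K1 : ℕ) : ℝ) * u i - ⌊((m * K1 : ℕ) : ℝ) * u i⌋) / (m * K1 : ℕ) := by
        show u i - (⌊((m * K1 : ℕ) : ℝ) * u i⌋ : ℝ) / (m * K1 : ℕ) = _
        field_simp
      rw [h2, Real.norm_eq_abs, abs_of_nonneg (div_nonneg (by
        have := Int.floor_le (((m * K1 : ℕ) : ℝ) * u i); linarith) hK.le)]
      exact div_le_div_of_nonneg_right (by
        have := Int.lt_floor_add_one (((m * K1 : ℕ) : ℝ) * u i); linarith) hK.le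
    have h3 : ‖u - gridPt m (m * K1) (fun i => ⌊((m * K1 : ℕ) : ℝ) * u i⌋)‖ ^ 2 ≤
        (1 / K1 : ℝ) ^ 2 := by
      rw [EuclideanSpace.norm_sq_eq]
      calc _ ≤ ∑ _i : Fin m, (1 / (m * K1 : ℕ) : ℝ) ^ 2 := Finset.sum_le_sum fun i _ =>
            pow_le_pow_left₀ (norm_nonneg _) (h1 i) 2
        _ = m * (1 / (m * K1 : ℕ) : ℝ) ^ 2 := by
            rw [Finset.sum_const, Finset.card_univ, Fintype.card_fin, nsmul_eq_mul]
        _ = (1 / m) * (1 / K1 : ℝ) ^ 2 := by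
            push_cast
            field_simp
        _ ≤ 1 * (1 / K1 : ℝ) ^ 2 := by
            refine mul_le_mul_of_nonneg_right ?_ (by positivity)
            rw [div_le_one hm0]
            exact_mod_cast hm
        _ = _ := one_mul _
    exact le_of_sq_le_sq h3 (by positivity)

/-- the nets: a finite set of unit vectors that covers the sphere with cosine at least `c` -/
theorem net_of_params {m K1 n : ℕ} (hm : 0 < m) (hK1 : 1 < K1) (hn : 1 ≤ n) {c l : ℝ} (hc : 0 ≤ c)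
    (hl : 0 < l) (hl1 : l ≤ 1)
    (hcl : (c + 2 / K1) ^ 2 + 2 * (c + 2 / K1) * l / n + l ^ 2 ≤ 1) :
    ∃ D : Finset (EuclideanSpace ℝ (Fin m)), (∀ u ∈ D, ‖u‖ = 1) ∧
      (∀ v, ∃ u ∈ D, c * ‖v‖ ≤ ⟪u, v⟫_ℝ) ∧
      (D.card : ℝ) ≤ 4 * n * K1 * m ^ 2 * (1 / l) ^ m + 1 := by
  classical
  have hm0 : (0 : ℝ) < m := by exact_mod_cast hm
  have hn0 : (0 : ℝ) < n := by exact_mod_cast hn
  have hK10 : (0 : ℝ) < K1 := by exact_mod_cast (by omega : 0 < K1)
  have hK11 : (1 : ℝ) < K1 := by exact_mod_cast hK1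
  set p : ℝ := l ^ m / (2 * n) with hp
  have hlm : 0 < l ^ m := by positivity
  have hlm1 : l ^ m ≤ 1 := pow_le_one₀ hl.le hl1
  have hp0 : 0 < p := by positivity
  have hp1 : p ≤ 1 := by
    rw [hp, div_le_one (by positivity)]
    have : (1 : ℝ) ≤ n := by exact_mod_cast hn
    linarith
  -- the directions of the grid points
  let w : (Fin m → ℤ) → EuclideanSpace ℝ (Fin m) := fun g =>
    ‖gridPt m (m * K1) g‖⁻¹ • gridPt m (m * K1) g
  set U₀ := Fintype.piFinset (fun _ : Fin m => Finset.Icc (-((m * K1 : ℕ) : ℤ))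
      ((m * K1 : ℕ) : ℤ)) with hU₀
  set U := U₀.filter (fun g => gridPt m (m * K1) g ≠ 0) with hU
  have hUw : ∀ g ∈ U, ‖w g‖ = 1 := by
    intro g hg
    have h1 := (Finset.mem_filter.1 hg).2
    show ‖‖gridPt m (m * K1) g‖⁻¹ • gridPt m (m * K1) g‖ = 1
    rw [norm_smul, norm_inv, norm_norm, inv_mul_cancel₀ (norm_ne_zero_iff.2 h1)]
  have hUc : (U.card : ℝ) ≤ Real.exp (2 * (m * K1) * m) := by
    have h1 : U₀.card = (2 * (m * K1) + 1) ^ m := by
      rw [hU₀, Fintype.card_piFinset]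
      simp only [Int.card_Icc, Finset.prod_const, Finset.card_univ, Fintype.card_fin]
      congr 1
      omega
    have h2 : (U.card : ℝ) ≤ (2 * (m * K1) + 1 : ℝ) ^ m := by
      have : U.card ≤ (2 * (m * K1) + 1) ^ m := h1 ▸ Finset.card_filter_le _ _
      exact_mod_cast this
    refine h2.trans ?_
    rw [mul_comm (2 * ((m : ℝ) * K1)) (m : ℝ), Real.exp_nat_mul]
    exact pow_le_pow_left₀ (by positivity) (Real.add_one_le_exp _) _
  -- the number of the points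
  set N : ℕ := ⌊2 * (m * K1) * m / p⌋₊ + 1 with hN
  have hN1 : 2 * (m * K1) * m < p * N := by
    have h1 := Nat.lt_floor_add_one (2 * (m * K1) * m / p)
    rw [div_lt_iff₀ hp0] at h1
    rw [hN]
    push_cast
    linarith
  have hN2 : (N : ℝ) ≤ 4 * n * K1 * m ^ 2 * (1 / l) ^ m + 1 := by
    rw [hN]
    push_cast
    have h1 := Nat.floor_le (show (0 : ℝ) ≤ 2 * (m * K1) * m / p by positivity)
    have h2 : 2 * (m * K1) * m / p = 4 * n * K1 * m ^ 2 * (1 / l) ^ m := by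
      rw [hp, one_div, inv_pow]
      field_simp
      ring
    linarith
  set c' : ℝ := c + 2 / K1 with hc'
  have hc'0 : 0 < c' := by positivity
  have hB0 : volume (Bl m) ≠ 0 := by
    have : 0 < volume (Metric.ball (0 : EuclideanSpace ℝ (Fin m)) 1) :=
      Metric.measure_ball_pos _ _ one_pos
    exact (this.trans_le (measure_mono Metric.ball_subset_closedBall)).ne'
  have hB1 : volume (Bl m) ≠ ∞ := (isCompact_closedBall _ _).measure_lt_top.ne
  obtain ⟨D, hD1, hD2, U', hU', hU1, hU2⟩ := greedy volume hB0 hB1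
    (fun g => {x | c' ≤ ⟪x, w g⟫_ℝ})
    (fun g => measurableSet_le measurable_const
      (by exact (continuous_id.inner continuous_const).measurable)) hp1 U
    (fun g hg => vol_cap (w g) (hUw g hg) n hn hc'0.le hl hcl) N
  have hU'0 : U' = ∅ := by
    by_contra hcon
    have h1 : (1 : ℝ) ≤ U'.card := by
      exact_mod_cast Finset.card_pos.2 (Finset.nonempty_iff_ne_empty.2 hcon)
    have h2 : (1 - p) ^ N ≤ Real.exp (-(p * N)) := by
      calc (1 - p) ^ N ≤ (Real.exp (-p)) ^ N := by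
            refine pow_le_pow_left₀ (by linarith) ?_ _
            have := Real.add_one_le_exp (-p)
            linarith
        _ = Real.exp (-(p * N)) := by
            rw [← Real.exp_nat_mul]
            ring_nf
    have h3 : (1 - p) ^ N * U.card ≤ Real.exp (-(p * N)) * Real.exp (2 * (m * K1) * m) :=
      mul_le_mul h2 hUc (by positivity) (Real.exp_pos _).le
    rw [← Real.exp_add] at h3
    have h4 : Real.exp (-(p * N) + 2 * (m * K1) * m) < 1 := by
      rw [Real.exp_lt_one_iff]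
      linarith
    linarith
  refine ⟨(D.filter (fun x => x ≠ 0)).image (fun x => ‖x‖⁻¹ • x), ?_, ?_, ?_⟩
  · intro u hu
    obtain ⟨x, hx, rfl⟩ := Finset.mem_image.1 hu
    have h1 := (Finset.mem_filter.1 hx).2
    rw [norm_smul, norm_inv, norm_norm, inv_mul_cancel₀ (norm_ne_zero_iff.2 h1)]
  · -- the covering of the unit vectors
    have key : ∀ u : EuclideanSpace ℝ (Fin m), ‖u‖ = 1 →
        ∃ y ∈ (D.filter (fun x => x ≠ 0)).image (fun x => ‖x‖⁻¹ • x), c ≤ ⟪y, u⟫_ℝ := by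
      intro u hu
      obtain ⟨g, hg, hgu⟩ := grid_near hm (by omega : 0 < K1) u hu
      set v := gridPt m (m * K1) g with hv
      have hK1' : 1 / (K1 : ℝ) < 1 := by rw [div_lt_one hK10]; exact hK11
      have hv0 : v ≠ 0 := by
        intro h0
        rw [h0, sub_zero, hu] at hgu
        linarith
      have hgU : g ∈ U := Finset.mem_filter.2 ⟨hg, hv0⟩
      obtain ⟨x, hx, hxg⟩ := hU1 g hgU (by rw [hU'0]; exact Finset.notMem_empty _)
      have hxg : c' ≤ ⟪x, w g⟫_ℝ := hxg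
      have hx1 : ‖x‖ ≤ 1 := by simpa using hD2 x hx
      have hx0 : x ≠ 0 := by
        rintro rfl
        rw [inner_zero_left] at hxg
        linarith
      have hxn : 0 < ‖x‖ := norm_pos_iff.2 hx0
      refine ⟨‖x‖⁻¹ • x, Finset.mem_image.2 ⟨x, Finset.mem_filter.2 ⟨hx, hx0⟩, rfl⟩, ?_⟩
      have h1 : c' ≤ ⟪‖x‖⁻¹ • x, w g⟫_ℝ := by
        rw [inner_smul_left]
        simp only [conj_trivial]
        have h2 : 1 ≤ ‖x‖⁻¹ := (one_le_inv₀ hxn).2 hx1
        have h3 : 0 ≤ ⟪x, w g⟫_ℝ := hc'0.le.trans hxg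
        nlinarith
      have h4 : ‖w g - u‖ ≤ 2 / K1 := by
        have h5 : ‖w g - v‖ ≤ ‖u - v‖ := by
          have h6 : w g - v = (‖v‖⁻¹ - 1) • v := by
            show ‖v‖⁻¹ • v - v = _
            rw [sub_smul, one_smul]
          have hvn : 0 < ‖v‖ := norm_pos_iff.2 hv0
          have h7 : ‖w g - v‖ = |1 - ‖v‖| := by
            rw [h6, norm_smul, Real.norm_eq_abs, ← abs_of_pos hvn, ← abs_mul, abs_of_pos hvn,
              sub_mul, inv_mul_cancel₀ hvn.ne', one_mul]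
          rw [h7, ← hu]
          exact abs_norm_sub_norm_le u v
        calc ‖w g - u‖ = ‖(w g - v) + (v - u)‖ := by congr 1; abel
          _ ≤ ‖w g - v‖ + ‖v - u‖ := norm_add_le _ _
          _ ≤ 1 / K1 + 1 / K1 := add_le_add (h5.trans hgu) (by rw [norm_sub_rev]; exact hgu)
          _ = 2 / K1 := by ring
      have h8 : ⟪‖x‖⁻¹ • x, w g - u⟫_ℝ ≤ 2 / K1 := by
        refine (real_inner_le_norm _ _).trans ?_
        rw [norm_smul, norm_inv, norm_norm, inv_mul_cancel₀ hxn.ne', one_mul]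
        exact h4
      rw [inner_sub_right] at h8
      have h9 : c' = c + 2 / K1 := hc'
      linarith
    intro v
    rcases eq_or_ne v 0 with rfl | hv
    · obtain ⟨y, hy, -⟩ := key (EuclideanSpace.single ⟨0, hm⟩ 1) (by simp)
      exact ⟨y, hy, by simp⟩
    · have hvn : 0 < ‖v‖ := norm_pos_iff.2 hv
      obtain ⟨y, hy, h⟩ := key (‖v‖⁻¹ • v) (by
        rw [norm_smul, norm_inv, norm_norm, inv_mul_cancel₀ hvn.ne'])
      refine ⟨y, hy, ?_⟩
      rw [inner_smul_right, inv_mul_eq_div, le_div_iff₀ hvn] at h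
      exact h
  · refine le_trans ?_ hN2
    exact_mod_cast (Finset.card_image_le.trans (Finset.card_filter_le _ _)).trans hD1

/-- **small nets in high dimensions**: if `c < 1` and `σ ^ 2 * (1 - c ^ 2) > 1`, then in every
large dimension `m` there are fewer than `σ ^ m` unit vectors that cover the sphere with cosine
at least `c` -/
theorem net {c σ : ℝ} (hc : 0 ≤ c) (hσ0 : 0 < σ) (hσ : 1 < σ ^ 2 * (1 - c ^ 2)) :
    ∃ m₀ : ℕ, ∀ m, m₀ ≤ m → ∃ D : Finset (EuclideanSpace ℝ (Fin m)), (∀ u ∈ D, ‖u‖ = 1) ∧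
      (∀ v, ∃ u ∈ D, c * ‖v‖ ≤ ⟪u, v⟫_ℝ) ∧ (D.card : ℝ) + 1 ≤ σ ^ m := by
  have hc1 : c < 1 := by
    by_contra hcon
    push Not at hcon
    have : σ ^ 2 * (1 - c ^ 2) ≤ 0 := mul_nonpos_of_nonneg_of_nonpos (by positivity) (by nlinarith)
    linarith
  have hσ1 : 1 < σ := by
    by_contra hcon
    push Not at hcon
    have h1 : σ ^ 2 ≤ 1 := by nlinarith
    have h2 : σ ^ 2 * (1 - c ^ 2) ≤ 1 * 1 := mul_le_mul h1 (by nlinarith) (by nlinarith) (by norm_num)
    linarith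
  -- the number `l`
  set q : ℝ := (1 / σ ^ 2 + (1 - c ^ 2)) / 2 with hq
  have hs : 1 / σ ^ 2 < 1 - c ^ 2 := by
    rw [div_lt_iff₀ (by positivity)]
    linarith
  have hs0 : 0 < 1 / σ ^ 2 := by positivity
  have hq0 : 0 < q := by rw [hq]; linarith
  set l : ℝ := Real.sqrt q with hl
  have hl0 : 0 < l := Real.sqrt_pos.2 hq0
  have hl2 : l ^ 2 = q := Real.sq_sqrt hq0.le
  have hq1 : q < 1 - c ^ 2 := by rw [hq]; linarith
  have hl1 : l ≤ 1 := by
    have : l ^ 2 ≤ 1 ^ 2 := by rw [hl2]; nlinarith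
    exact le_of_sq_le_sq this (by norm_num)
  have hlσ : 1 < l * σ := by
    have h1 : 1 < (l * σ) ^ 2 := by
      rw [mul_pow, hl2]
      have h2 : 1 / σ ^ 2 < q := by rw [hq]; linarith
      rw [div_lt_iff₀ (by positivity)] at h2
      exact h2
    have h3 : (1 : ℝ) ^ 2 < (l * σ) ^ 2 := by rw [one_pow]; exact h1
    exact lt_of_pow_lt_pow_left₀ 2 (by positivity) h3
  set δ : ℝ := 1 - c ^ 2 - l ^ 2 with hδ
  have hδ0 : 0 < δ := by rw [hδ, hl2]; linarith
  obtain ⟨K, hK⟩ := exists_nat_gt (16 / δ)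
  set K1 : ℕ := K + 2 with hK1
  have hK1' : 16 / δ < (K1 : ℝ) := by
    rw [hK1]; push_cast; linarith
  have hK2 : (2 : ℝ) ≤ K1 := by
    rw [hK1]; push_cast
    have : (0 : ℝ) ≤ K := Nat.cast_nonneg K
    linarith
  have hK0 : (0 : ℝ) < K1 := by linarith
  have hKδ : 8 / (K1 : ℝ) ≤ δ / 2 := by
    rw [div_lt_iff₀ hδ0] at hK1'
    rw [div_le_iff₀ hK0]
    linarith
  have hKδ' : 6 / (K1 : ℝ) ≤ δ / 2 := by
    refine le_trans ?_ hKδ
    exact div_le_div_of_nonneg_right (by norm_num) hK0.le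
  have hcl : (c + 2 / K1) ^ 2 + 2 * (c + 2 / K1) * l / K1 + l ^ 2 ≤ 1 := by
    set t : ℝ := 1 / K1 with ht
    have ht0 : 0 < t := by positivity
    have ht1 : t ≤ 1 / 2 := one_div_le_one_div_of_le (by norm_num) hK2
    have e1 : 2 / (K1 : ℝ) = 2 * t := by rw [ht]; ring
    have e2 : 2 * (c + 2 / K1) * l / K1 = 2 * (c + 2 * t) * l * t := by rw [e1, ht]; ring
    have e3 : 8 / (K1 : ℝ) = 8 * t := by rw [ht]; ring
    have e4 : 6 / (K1 : ℝ) = 6 * t := by rw [ht]; ring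
    rw [e2, e1]
    rw [e3] at hKδ
    rw [e4] at hKδ'
    have h1 : (c + 2 * t) ^ 2 ≤ c ^ 2 + 8 * t := by nlinarith
    have h2 : 2 * (c + 2 * t) * l * t ≤ 6 * t := by
      have h3 : (c + 2 * t) * l ≤ 3 * 1 := mul_le_mul (by linarith) hl1 hl0.le (by norm_num)
      nlinarith
    have h4 : δ = 1 - c ^ 2 - l ^ 2 := hδ
    linarith
  -- the limit
  have hr : 1 / (l * σ) < 1 := by rw [div_lt_one (by positivity)]; exact hlσ
  have hT1 : Tendsto (fun m : ℕ => 4 * (K1 : ℝ) * K1 * ((m : ℝ) ^ 2 * (1 / (l * σ)) ^ m))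
      atTop (𝓝 (4 * (K1 : ℝ) * K1 * 0)) :=
    (tendsto_pow_const_mul_const_pow_of_abs_lt_one 2 (by
      rw [abs_of_pos (by positivity)]; exact hr)).const_mul _
  have hT2 : Tendsto (fun m : ℕ => 2 * (1 / σ) ^ m) atTop (𝓝 (2 * 0)) :=
    (tendsto_pow_atTop_nhds_zero_of_lt_one (by positivity) (by
      rw [div_lt_one hσ0]; exact hσ1)).const_mul _
  have hT := hT1.add hT2
  rw [mul_zero, mul_zero, add_zero] at hT
  obtain ⟨m₀, hm₀⟩ := eventually_atTop.1 (hT.eventually (gt_mem_nhds (show (0 : ℝ) < 1 by norm_num)))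
  refine ⟨m₀ + 1, fun m hm => ?_⟩
  obtain ⟨D, h1, h2, h3⟩ := net_of_params (m := m) (K1 := K1) (n := K1) (by omega) (by omega)
    (by omega) hc hl0 hl1 hcl
  refine ⟨D, h1, h2, ?_⟩
  have h4 := hm₀ m (by omega)
  have hσm : 0 < σ ^ m := by positivity
  have h5 : (4 * (K1 : ℝ) * K1 * ((m : ℝ) ^ 2 * (1 / (l * σ)) ^ m) + 2 * (1 / σ) ^ m) * σ ^ m =
      4 * K1 * K1 * m ^ 2 * (1 / l) ^ m + 2 := by
    have e1 : (1 / (l * σ)) ^ m * σ ^ m = (1 / l) ^ m := by
      rw [← mul_pow]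
      congr 1
      field_simp
    have e2 : (1 / σ) ^ m * σ ^ m = 1 := by
      rw [← mul_pow, one_div, inv_mul_cancel₀ hσ0.ne', one_pow]
    calc _ = 4 * (K1 : ℝ) * K1 * (m : ℝ) ^ 2 * ((1 / (l * σ)) ^ m * σ ^ m) +
          2 * ((1 / σ) ^ m * σ ^ m) := by ring
      _ = _ := by rw [e1, e2]; ring
  have h6 : (4 * (K1 : ℝ) * K1 * ((m : ℝ) ^ 2 * (1 / (l * σ)) ^ m) + 2 * (1 / σ) ^ m) * σ ^ m ≤
      1 * σ ^ m := mul_le_mul_of_nonneg_right h4.le hσm.le
  rw [h5, one_mul] at h6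
  linarith

end Pool.Agent.V7H52.HX
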