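import Mathlib

set_option autoImplicit false

open Set Filter Topology MeasureTheory
open scoped InnerProductSpace ENNReal Pointwise

/-!
# Small nets of unit vectors in high dimensions
-/

namespace Pool.Agent.V7H52.HX

/-- the unit ball -/
abbrev Bl (m : ℕ) : Set (EuclideanSpace ℝ (Fin m)) := Metric.closedBall 0 1

theorem vol_half {m : ℕ} (u : EuclideanSpace ℝ (Fin m)) :
    volume (Bl m) ≤ 2 * volume (Bl m ∩ {x | 0 ≤ ⟪x, u⟫_ℝ}) := by
  set H : Set (EuclideanSpace ℝ (Fin m)) := Bl m ∩ {x | 0 ≤ ⟪x, u⟫_ℝ} with hH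
  have h1 : Bl m ⊆ H ∪ (-1 : ℝ) • H := by
    intro x hx
    rcases le_total 0 ⟪x, u⟫_ℝ with h | h
    · exact Or.inl ⟨hx, h⟩
    · refine Or.inr ⟨-x, ⟨?_, ?_⟩, by simp⟩
      · simpa using hx
      · show 0 ≤ ⟪-x, u⟫_ℝ
        rw [inner_neg_left]; linarith
  calc volume (Bl m) ≤ volume (H ∪ (-1 : ℝ) • H) := measure_mono h1
    _ ≤ volume H + volume ((-1 : ℝ) • H) := measure_union_le _ _
    _ = 2 * volume H := by
        rw [Measure.addHaar_smul]
        simp [two_mul]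

theorem vol_slab {m : ℕ} (u : EuclideanSpace ℝ (Fin m)) (hu : ‖u‖ = 1) (n : ℕ) (hn : 1 ≤ n) :
    volume (Bl m) ≤ 2 * (n * volume (Bl m ∩ {x | 0 ≤ ⟪x, u⟫_ℝ ∧ ⟪x, u⟫_ℝ ≤ 1 / n})) := by
  refine (vol_half u).trans ?_
  gcongr
  have hn0 : (0 : ℝ) < n := by exact_mod_cast hn
  set S : Set (EuclideanSpace ℝ (Fin m)) := Bl m ∩ {x | 0 ≤ ⟪x, u⟫_ℝ ∧ ⟪x, u⟫_ℝ ≤ 1 / n} with hS
  have h1 : Bl m ∩ {x | 0 ≤ ⟪x, u⟫_ℝ} ⊆
      ⋃ k ∈ Finset.range n, (fun x => -((k / n : ℝ) • u) + x) ⁻¹' S := by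
    rintro x ⟨hx, hx0⟩
    have hx0 : 0 ≤ ⟪x, u⟫_ℝ := hx0
    have hx1 : ‖x‖ ≤ 1 := by simpa using hx
    have hxu : ⟪x, u⟫_ℝ ≤ 1 := by
      have := real_inner_le_norm x u
      rw [hu, mul_one] at this
      linarith
    -- the number of the slab
    obtain ⟨k, hk, h2, h3⟩ : ∃ k < n, (k : ℝ) / n ≤ ⟪x, u⟫_ℝ ∧ ⟪x, u⟫_ℝ ≤ (k + 1 : ℝ) / n := by
      by_cases hk : ⌊n * ⟪x, u⟫_ℝ⌋₊ < n
      · refine ⟨_, hk, ?_, ?_⟩
        · rw [div_le_iff₀ hn0, mul_comm]
          exact Nat.floor_le (by positivity)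
        · rw [le_div_iff₀ hn0, mul_comm]
          exact (Nat.lt_floor_add_one _).le
      · push Not at hk
        have h4 : (n : ℝ) ≤ n * ⟪x, u⟫_ℝ := (Nat.cast_le.2 hk).trans (Nat.floor_le (by positivity))
        have h5 : 1 ≤ ⟪x, u⟫_ℝ := by
          by_contra hcon
          push Not at hcon
          nlinarith
        refine ⟨n - 1, by omega, ?_, ?_⟩
        · rw [div_le_iff₀ hn0, Nat.cast_sub hn]
          push_cast
          nlinarith
        · rw [Nat.cast_sub hn]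
          push_cast
          rw [sub_add_cancel, div_self hn0.ne']
          exact hxu
    refine mem_biUnion (Finset.mem_coe.2 (Finset.mem_range.2 hk)) ?_
    have huu : ⟪u, u⟫_ℝ = 1 := by rw [real_inner_self_eq_norm_sq, hu]; norm_num
    have hin : ⟪-((k / n : ℝ) • u) + x, u⟫_ℝ = ⟪x, u⟫_ℝ - k / n := by
      rw [inner_add_left, inner_neg_left, inner_smul_left, huu]
      simp only [conj_trivial]
      ring
    have hs0 : (0 : ℝ) ≤ k / n := by positivity
    refine ⟨?_, ?_, ?_⟩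
    · rw [mem_closedBall_zero_iff]
      have h4 : ‖-((k / n : ℝ) • u) + x‖ ^ 2 ≤ 1 := by
        rw [← real_inner_self_eq_norm_sq, inner_add_left, inner_add_right, inner_add_right,
          inner_neg_left, inner_neg_left, inner_neg_right, inner_neg_right, inner_smul_left,
          inner_smul_left, inner_smul_right, inner_smul_right, huu, real_inner_comm x u,
          real_inner_self_eq_norm_sq]
        simp only [conj_trivial]
        have h5 : ‖x‖ ^ 2 ≤ 1 := by nlinarith [norm_nonneg x]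
        nlinarith
      have h6 := norm_nonneg (-((k / n : ℝ) • u) + x)
      nlinarith
    · show 0 ≤ ⟪-((k / n : ℝ) • u) + x, u⟫_ℝ
      rw [hin]; linarith
    · show ⟪-((k / n : ℝ) • u) + x, u⟫_ℝ ≤ 1 / n
      rw [hin]
      rw [add_div] at h3
      linarith
  calc volume (Bl m ∩ {x | 0 ≤ ⟪x, u⟫_ℝ})
      ≤ volume (⋃ k ∈ Finset.range n, (fun x => -((k / n : ℝ) • u) + x) ⁻¹' S) := measure_mono h1
    _ ≤ ∑ k ∈ Finset.range n, volume ((fun x => -((k / n : ℝ) • u) + x) ⁻¹' S) :=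
        measure_biUnion_finset_le _ _
    _ = ∑ _k ∈ Finset.range n, volume S := Finset.sum_congr rfl fun k _ => measure_preimage_add _ _ _
    _ = n * volume S := by rw [Finset.sum_const, Finset.card_range, nsmul_eq_mul]

theorem vol_cap {m : ℕ} (u : EuclideanSpace ℝ (Fin m)) (hu : ‖u‖ = 1) (n : ℕ) (hn : 1 ≤ n)
    {c l : ℝ} (hc : 0 ≤ c) (hl : 0 < l) (hcl : c ^ 2 + 2 * c * l / n + l ^ 2 ≤ 1) :
    l ^ m / (2 * n) * volume.real (Bl m) ≤ volume.real ({x | c ≤ ⟪x, u⟫_ℝ} ∩ Bl m) := by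
  have hn0 : (0 : ℝ) < n := by exact_mod_cast hn
  set S : Set (EuclideanSpace ℝ (Fin m)) := Bl m ∩ {x | 0 ≤ ⟪x, u⟫_ℝ ∧ ⟪x, u⟫_ℝ ≤ 1 / n} with hS
  set A : Set (EuclideanSpace ℝ (Fin m)) := {x | c ≤ ⟪x, u⟫_ℝ} ∩ Bl m with hA
  have huu : ⟪u, u⟫_ℝ = 1 := by rw [real_inner_self_eq_norm_sq, hu]; norm_num
  have h1 : (fun x => -(c • u) + x) ⁻¹' (l • S) ⊆ A := by
    rintro x ⟨y, ⟨hy1, hy2, hy3⟩, hy⟩
    have hx : x = c • u + l • y := by
      have h2 : l • y = -(c • u) + x := hy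
      rw [h2]; abel
    have hy1' : ‖y‖ ≤ 1 := by simpa using hy1
    have hy2 : 0 ≤ ⟪y, u⟫_ℝ := hy2
    have hy3 : ⟪y, u⟫_ℝ ≤ 1 / n := hy3
    refine ⟨?_, ?_⟩
    · show c ≤ ⟪x, u⟫_ℝ
      rw [hx, inner_add_left, inner_smul_left, inner_smul_left, huu]
      simp only [conj_trivial]
      nlinarith
    · rw [mem_closedBall_zero_iff]
      have h4 : ‖x‖ ^ 2 ≤ 1 := by
        have h5 : ‖y‖ ^ 2 ≤ 1 := by nlinarith [norm_nonneg y]
        have h6 : c * l * ⟪y, u⟫_ℝ ≤ c * l * (1 / n) := mul_le_mul_of_nonneg_left hy3 (by positivity)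
        have h7 : l ^ 2 * ‖y‖ ^ 2 ≤ l ^ 2 * 1 := mul_le_mul_of_nonneg_left h5 (by positivity)
        have h8 : 2 * c * l / n = 2 * (c * l * (1 / n)) := by ring
        have h9 : ‖x‖ ^ 2 = c ^ 2 + 2 * (c * l * ⟪y, u⟫_ℝ) + l ^ 2 * ‖y‖ ^ 2 := by
          rw [hx, norm_add_sq_real, norm_smul, norm_smul, hu, inner_smul_left, inner_smul_right,
            real_inner_comm u y, mul_pow, Real.norm_eq_abs, Real.norm_eq_abs, mul_pow, sq_abs,
            sq_abs]
          simp only [conj_trivial]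
          ring
        rw [h9]
        linarith
      have h6 := norm_nonneg x
      nlinarith
  have h2 : ENNReal.ofReal (l ^ m) * volume S ≤ volume A := by
    have h3 := measure_mono (μ := volume) h1
    rw [measure_preimage_add, Measure.addHaar_smul, finrank_euclideanSpace, Fintype.card_fin,
      abs_of_pos (by positivity)] at h3
    exact h3
  have hSf : volume S ≠ ∞ := ((measure_mono inter_subset_left).trans_lt
    (isCompact_closedBall _ _).measure_lt_top).ne
  have hAf : volume A ≠ ∞ := ((measure_mono inter_subset_right).trans_lt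
    (isCompact_closedBall _ _).measure_lt_top).ne
  have h3 := ENNReal.toReal_mono (by
    exact ENNReal.mul_ne_top (by simp) (ENNReal.mul_ne_top (by simp) hSf)) (vol_slab u hu n hn)
  rw [ENNReal.toReal_mul, ENNReal.toReal_mul] at h3
  have h4 := ENNReal.toReal_mono hAf h2
  rw [ENNReal.toReal_mul, ENNReal.toReal_ofReal (by positivity)] at h4
  simp only [ENNReal.toReal_ofNat, ENNReal.toReal_natCast] at h3
  have h5 : volume.real (Bl m) ≤ 2 * (n * volume.real S) := h3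
  have h6 : l ^ m * volume.real S ≤ volume.real A := h4
  have hlm : 0 < l ^ m := by positivity
  calc l ^ m / (2 * n) * volume.real (Bl m) ≤ l ^ m / (2 * n) * (2 * (n * volume.real S)) :=
        mul_le_mul_of_nonneg_left h5 (by positivity)
    _ = l ^ m * volume.real S := by field_simp
    _ ≤ _ := h6

/-- one point that is in many of the sets -/
theorem greedy_step {X κ : Type*} [MeasurableSpace X] (μ : Measure X) {B : Set X}
    (hB0 : μ B ≠ 0) (hB1 : μ B ≠ ∞) (A : κ → Set X) (hA : ∀ k, MeasurableSet (A k)) {p : ℝ}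
    (U : Finset κ) (hAp : ∀ k ∈ U, p * μ.real B ≤ μ.real (A k ∩ B)) :
    ∃ x ∈ B, p * U.card ≤ ∑ k ∈ U, (A k).indicator (fun _ => (1 : ℝ)) x := by
  have hfin : IsFiniteMeasure (μ.restrict B) := ⟨by
    rw [Measure.restrict_apply_univ]; exact lt_top_iff_ne_top.2 hB1⟩
  have hint : ∀ k, Integrable ((A k).indicator (fun _ => (1 : ℝ))) (μ.restrict B) := fun k =>
    (integrable_const 1).indicator (hA k)
  obtain ⟨x, hx, h⟩ := exists_setAverage_le (f := fun x => ∑ k ∈ U,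
    (A k).indicator (fun _ => (1 : ℝ)) x) hB0 hB1 (integrable_finsetSum _ fun k _ => hint k)
  refine ⟨x, hx, le_trans ?_ h⟩
  rw [setAverage_eq, integral_finsetSum _ fun k _ => hint k, smul_eq_mul]
  have hB : 0 < μ.real B := ENNReal.toReal_pos hB0 hB1
  rw [inv_mul_eq_div, le_div_iff₀ hB]
  calc p * U.card * μ.real B = ∑ _k ∈ U, p * μ.real B := by
        rw [Finset.sum_const, nsmul_eq_mul]; ring
    _ ≤ ∑ k ∈ U, μ.real (A k ∩ B) := Finset.sum_le_sum hAp
    _ = _ := by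
        refine Finset.sum_congr rfl fun k _ => ?_
        rw [integral_indicator (hA k), setIntegral_const, smul_eq_mul, mul_one,
          measureReal_restrict_apply (hA k)]

theorem greedy {X κ : Type*} [MeasurableSpace X] (μ : Measure X) {B : Set X}
    (hB0 : μ B ≠ 0) (hB1 : μ B ≠ ∞) (A : κ → Set X) (hA : ∀ k, MeasurableSet (A k)) {p : ℝ}
    (hp1 : p ≤ 1) (U : Finset κ) (hAp : ∀ k ∈ U, p * μ.real B ≤ μ.real (A k ∩ B)) (N : ℕ) :
    ∃ D : Finset X, D.card ≤ N ∧ (∀ x ∈ D, x ∈ B) ∧ ∃ U' ⊆ U,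
      (∀ k ∈ U, k ∉ U' → ∃ x ∈ D, x ∈ A k) ∧ (U'.card : ℝ) ≤ (1 - p) ^ N * U.card := by
  classical
  induction N with
  | zero => exact ⟨∅, by simp, by simp, U, le_rfl, fun k hk h => absurd hk h, by simp⟩
  | succ N ih =>
    obtain ⟨D, hD1, hD2, U', hU', hU1, hU2⟩ := ih
    obtain ⟨x, hx, h⟩ := greedy_step μ hB0 hB1 A hA U' fun k hk => hAp k (hU' hk)
    refine ⟨insert x D, (Finset.card_insert_le _ _).trans (Nat.succ_le_succ hD1), ?_,
      U'.filter (fun k => x ∉ A k), (Finset.filter_subset _ _).trans hU', ?_, ?_⟩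
    · intro y hy
      rcases Finset.mem_insert.1 hy with rfl | hy
      · exact hx
      · exact hD2 y hy
    · intro k hk hkU
      by_cases hkU' : k ∈ U'
      · have : x ∈ A k := by
          by_contra hcon
          exact hkU (Finset.mem_filter.2 ⟨hkU', hcon⟩)
        exact ⟨x, Finset.mem_insert_self _ _, this⟩
      · obtain ⟨y, hy, hyk⟩ := hU1 k hk hkU'
        exact ⟨y, Finset.mem_insert_of_mem hy, hyk⟩
    · have h1 : ∑ k ∈ U', (A k).indicator (fun _ => (1 : ℝ)) x =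
          ((U'.filter (fun k => x ∈ A k)).card : ℝ) := by
        rw [Finset.card_filter]
        push_cast
        refine Finset.sum_congr rfl fun k _ => ?_
        by_cases hk : x ∈ A k
        · simp [hk]
        · simp [hk]
      have h2 := Finset.card_filter_add_card_filter_not (s := U') (fun k => x ∈ A k)
      have h3 : ((U'.filter (fun k => x ∈ A k)).card : ℝ) +
          ((U'.filter (fun k => x ∉ A k)).card : ℝ) = U'.card := by exact_mod_cast h2
      rw [h1] at h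
      have h4 : (0 : ℝ) ≤ 1 - p := by linarith
      calc ((U'.filter (fun k => x ∉ A k)).card : ℝ) ≤ (1 - p) * U'.card := by linarith
        _ ≤ (1 - p) * ((1 - p) ^ N * U.card) := mul_le_mul_of_nonneg_left hU2 h4
        _ = (1 - p) ^ (N + 1) * U.card := by ring

end Pool.Agent.V7H52.HX
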